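import Pool.Agent.Helper15.LR.Defs3

set_option autoImplicit false

open Finset Filter
open scoped Classical Topology

namespace Pool.Agent.Helper15.LR

namespace R7

/-- sum of the reciprocals of the sizes of the sets containing `j` -/
noncomputable def fj (K : ℕ) (j : Fin K) : ℝ :=
  ∑ X ∈ (univ : Finset (Finset (Fin K))).filter (fun X => j ∈ X), (1 : ℝ) / (X.card : ℝ)

lemma fj_eq (K : ℕ) (j j' : Fin K) : fj K j = fj K j' := by
  unfold fj
  refine Finset.sum_nbij' (fun X => X.map (Equiv.swap j j').toEmbedding)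
    (fun X => X.map (Equiv.swap j j').toEmbedding) ?_ ?_ ?_ ?_ ?_
  · intro X hX
    simp only [mem_filter, mem_univ, true_and, mem_map_equiv, Equiv.symm_swap,
      Equiv.swap_apply_right] at hX ⊢
    exact hX
  · intro X hX
    simp only [mem_filter, mem_univ, true_and, mem_map_equiv, Equiv.symm_swap,
      Equiv.swap_apply_left] at hX ⊢
    exact hX
  · intro X _
    ext i
    simp only [mem_map_equiv, Equiv.symm_swap, Equiv.swap_apply_self]
  · intro X _
    ext i
    simp only [mem_map_equiv, Equiv.symm_swap, Equiv.swap_apply_self]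
  · intro X _
    rw [Finset.card_map]

lemma sum_fj (K : ℕ) : ∑ j : Fin K, fj K j = 2 ^ K - 1 := by
  unfold fj
  have h1 : ∀ j : Fin K, ∑ X ∈ (univ : Finset (Finset (Fin K))).filter (fun X => j ∈ X),
      (1 : ℝ) / (X.card : ℝ) = ∑ X : Finset (Fin K), if j ∈ X then (1 : ℝ) / (X.card : ℝ) else 0 := by
    intro j
    rw [Finset.sum_filter]
  simp only [h1]
  rw [Finset.sum_comm]
  have h2 : ∀ X : Finset (Fin K), ∑ j : Fin K, (if j ∈ X then (1 : ℝ) / (X.card : ℝ) else 0) =
      1 - if X = ∅ then 1 else 0 := by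
    intro X
    rw [← Finset.sum_filter]
    rw [Finset.sum_const, nsmul_eq_mul]
    have h3 : (univ.filter (fun j => j ∈ X)) = X := by ext i; simp
    rw [h3]
    by_cases hX : X = ∅
    · rw [if_pos hX, hX]; simp
    · rw [if_neg hX]
      have : (X.card : ℝ) ≠ 0 := by
        exact_mod_cast Finset.card_ne_zero.mpr (Finset.nonempty_iff_ne_empty.mpr hX)
      field_simp
      ring
  simp only [h2]
  rw [Finset.sum_sub_distrib]
  simp

lemma fj_val (K : ℕ) (hK : 1 ≤ K) (j : Fin K) : fj K j = (2 ^ K - 1) / K := by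
  have h := sum_fj K
  have h2 : ∑ i : Fin K, fj K i = K * fj K j := by
    rw [Finset.sum_congr rfl (fun i _ => fj_eq K i j), Finset.sum_const, nsmul_eq_mul]
    simp
  rw [h2] at h
  have : (K : ℝ) ≠ 0 := by
    have : (0 : ℝ) < K := by exact_mod_cast hK
    exact this.ne'
  field_simp
  linarith

end R7

open R7 in
theorem R7_nat : Nat_stmt := by
  intro V _ K F σ lam d v hK hl0 hl1 h j
  have hd : 0 ≤ d := (abs_nonneg _).trans (h ∅)
  set SX := (univ : Finset (Finset (Fin K))).filter (fun X => j ∈ X) with hSX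
  have hpat : ∀ u, j ∈ pat σ v u ↔ σ v j ≠ σ u j := by
    intro u; unfold pat; simp
  have h1 : nu F σ lam v j = ∑ X ∈ SX,
      (((nb F v).filter (fun u => pat σ v u = X)).card : ℝ) * (lam / (X.card : ℝ)) := by
    unfold nu
    rw [← Finset.sum_fiberwise_of_maps_to (g := fun u => pat σ v u) (t := SX)]
    · apply Finset.sum_congr rfl
      intro X hX
      have hjX : j ∈ X := (Finset.mem_filter.mp hX).2
      have h2 : (((nb F v).filter (fun u => σ v j ≠ σ u j)).filter (fun u => pat σ v u = X)) =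
          ((nb F v).filter (fun u => pat σ v u = X)) := by
        ext u
        simp only [mem_filter]
        constructor
        · rintro ⟨⟨a, _⟩, c⟩; exact ⟨a, c⟩
        · rintro ⟨a, c⟩
          refine ⟨⟨a, ?_⟩, c⟩
          rw [← hpat u, c]; exact hjX
      rw [h2]
      have h3 : ∀ u ∈ ((nb F v).filter (fun u => pat σ v u = X)),
          lam / ((pat σ v u).card : ℝ) = lam / (X.card : ℝ) := by
        intro u hu
        rw [(Finset.mem_filter.mp hu).2]
      rw [Finset.sum_congr rfl h3, Finset.sum_const, nsmul_eq_mul]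
    · intro u hu
      rw [hSX, Finset.mem_filter]
      exact ⟨Finset.mem_univ _, (hpat u).mpr (Finset.mem_filter.mp hu).2⟩
  have h2 : lam * (1 - (1 / 2) ^ K) / K * dg F v = ∑ X ∈ SX,
      ((1 / 2) ^ K * (dg F v : ℝ)) * (lam / (X.card : ℝ)) := by
    rw [← Finset.mul_sum]
    have h3 : ∑ X ∈ SX, lam / (X.card : ℝ) = lam * fj K j := by
      unfold fj
      rw [Finset.mul_sum]
      apply Finset.sum_congr rfl
      intro X _
      ring
    rw [h3, fj_val K hK j]
    have h4 : (1 / 2 : ℝ) ^ K * 2 ^ K = 1 := by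
      rw [← mul_pow]; norm_num
    have h5 : (1 / 2 : ℝ) ^ K * (2 ^ K - 1) = 1 - (1 / 2) ^ K := by
      rw [mul_sub, h4]; ring
    calc lam * (1 - (1 / 2) ^ K) / K * dg F v
        = ((1 / 2 : ℝ) ^ K * (2 ^ K - 1)) * (lam / K * dg F v) := by rw [h5]; ring
      _ = (1 / 2) ^ K * (dg F v : ℝ) * (lam * ((2 ^ K - 1) / K)) := by ring
  rw [h1, h2, ← Finset.sum_sub_distrib]
  refine (Finset.abs_sum_le_sum_abs _ _).trans ?_
  have h6 : ∀ X ∈ SX, |(((nb F v).filter (fun u => pat σ v u = X)).card : ℝ) *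
      (lam / (X.card : ℝ)) - ((1 / 2) ^ K * (dg F v : ℝ)) * (lam / (X.card : ℝ))| ≤ d := by
    intro X hX
    have hjX : j ∈ X := (Finset.mem_filter.mp hX).2
    have hc : (1 : ℝ) ≤ (X.card : ℝ) := by
      exact_mod_cast Finset.card_pos.mpr ⟨j, hjX⟩
    rw [← sub_mul, abs_mul]
    have h7 : |lam / (X.card : ℝ)| ≤ 1 := by
      rw [abs_of_nonneg (by positivity)]
      rw [div_le_one (by linarith)]
      linarith
    calc _ ≤ d * 1 := mul_le_mul (h X) h7 (abs_nonneg _) hd
      _ = d := by ring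
  refine (Finset.sum_le_sum h6).trans ?_
  rw [Finset.sum_const, nsmul_eq_mul]
  have h8 : (SX.card : ℝ) ≤ 2 ^ K := by
    have : SX.card ≤ 2 ^ K := by
      refine (Finset.card_filter_le _ _).trans ?_
      simp
    exact_mod_cast this
  exact mul_le_mul_of_nonneg_right h8 hd

end Pool.Agent.Helper15.LR
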